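import Mathlib
import Pool.Agent.Q276.HT.Final

/-!
# Integral and pure, but not de Rham

Let `l` be an odd prime. We construct a continuous character `ρ : Gal(ℚ̄/ℚ) → GL₁(ℚ̄_l)` (the
inverse of the square root of the pro-`l` part of the cyclotomic character), unramified at every
prime `q ≠ l`, such that at every `q ≠ l` the eigenvalue of geometric Frobenius is an algebraic
integer all of whose complex conjugates have absolute value `q^{1/2}` (so that condition (2) of the
conjecture holds with `w = 1`), while the restriction of `ρ` to the decomposition groups at `l` is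
not de Rham (so that condition (1) fails).

The definitions used in the statement are in `Pool.Agent.Q276.HT.Stmt` and
`Pool.Agent.Q276.HT.Defs`.
-/

namespace Pool.Agent.Results.MP_395897_nt.PureNotDeRham

open Q276.HT

attribute [local instance 10] DivisionRing.toRatAlgebra

/-- **Condition (2) does not imply condition (1).** For every odd prime `l` there is a continuous
irreducible (one-dimensional) representation `ρ` of `Gal(ℚ̄/ℚ)` over `ℚ̄_l`, unramified at every
prime `q ≠ l`, which is integral and pure of weight `1` at every prime `q ≠ l`, but whose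
restriction to the decomposition groups at `l` is not de Rham. -/
theorem result (l : ℕ) [Fact l.Prime] (hl : l ≠ 2) :
    ∃ ρ : GQ →* GL (Fin 1) (PadicAlgCl l), Continuous ρ ∧ Irreducible ρ ∧
      (∀ q : ℕ, q.Prime → q ≠ l → UnramifiedAt q ρ ∧ IntegralPureAt q 1 ρ) ∧
      ∀ ι : AlgebraicClosure ℚ →ₐ[ℚ] PadicAlgCl l, ¬ IsDeRham (ρ.comp (decomposition l ι)) := by
  refine ⟨rho hl, continuous_rho hl, irreducible_rho hl,
    fun q hq hql => ⟨unramified_rho hl hq hql, pure_rho hl hq hql⟩, fun ι h => ?_⟩
  rw [IsDeRham, dDR_rho, finrank_bot] at h
  exact zero_ne_one h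

end Pool.Agent.Results.MP_395897_nt.PureNotDeRham
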